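import Pool.Agent.K6.H41.TrapD

/-!
# MP_67b65f_an, Q1: negative answer

For every `n ≥ 2` there is a bounded domain of `ℝⁿ` with smooth boundary such that the fronts do not
become dense for any of its points `P`.

With `y` the last coordinate and `ρ` the square of the distance to the `y`-axis, the domain is
`ρ < 2`, `q(ρ) < y² < (1 + √(1 - ρ/2))²`. For `|y| ≥ 1` it consists of two halves of oblate
ellipsoids `ρ/2 + (y ∓ 1)² < 1`, whose focal spheres are `ρ = 1`, `y = ± 1`; there `q = 1`, so that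
the inner wall touches the focal spheres. A photon that enters a half ellipsoid through the focal
ball leaves it through the focal ball, so it never reaches the pocket `ρ > 1`, `0 < y < 1` (or its
mirror image).

The definitions used by the statement (`Euc`, `IsDefFun`, `IsSmoothDomain`, `IsOuterNormal`,
`Photon`, `front`, `FrontsBecomeDense`) are those of `Pool/Agent/H800R2/Front.lean`.
-/

set_option autoImplicit false

open Set Filter Topology

namespace Pool.Agent.Results.MP_67b65f_an.NeverDense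

open Pool.Agent.H800R2

/-- For every `n ≥ 2` there is a bounded domain `Ω` of `ℝⁿ` with smooth boundary such that for no
point `P` of `Ω` the fronts from `P` become dense as `t → ∞`. More precisely there are two nonempty
open subsets `U`, `V` of `Ω` such that, for every point `P` of `Ω`, one of them is disjoint from all
the fronts from `P`. -/
theorem result : ∀ n : ℕ, 2 ≤ n → ∃ Ω : Set (Euc n), IsSmoothDomain Ω ∧
    (∀ P ∈ Ω, ¬ FrontsBecomeDense Ω P) ∧
    ∃ U V : Set (Euc n), IsOpen U ∧ U.Nonempty ∧ U ⊆ Ω ∧ IsOpen V ∧ V.Nonempty ∧ V ⊆ Ω ∧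
      ∀ P ∈ Ω, (∀ t : ℝ, Disjoint (front Ω P t) U) ∨ (∀ t : ℝ, Disjoint (front Ω P t) V) := by
  intro n hn
  obtain ⟨Ω, hΩ, U, V, hU, hU0, hUΩ, hV, hV0, hVΩ, h⟩ := Pool.Agent.K6.H41.Trap.main n hn
  refine ⟨Ω, hΩ, ?_, U, V, hU, hU0, hUΩ, hV, hV0, hVΩ, h⟩
  have key : ∀ P : Euc n, ∀ W : Set (Euc n), IsOpen W → W.Nonempty → W ⊆ Ω →
      (∀ t : ℝ, Disjoint (front Ω P t) W) → ¬ FrontsBecomeDense Ω P := by
    rintro P W hW ⟨x, hx⟩ hWΩ hdis hdense
    obtain ⟨ε, hε, hball⟩ := Metric.isOpen_iff.1 hW x hx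
    obtain ⟨T, hT⟩ := hdense ε hε
    obtain ⟨q, hq, hd⟩ := hT T le_rfl x (hWΩ hx)
    refine Set.disjoint_left.1 (hdis T) hq (hball ?_)
    rw [Metric.mem_ball, dist_comm]
    exact hd
  intro P hP
  rcases h P hP with h1 | h1
  · exact key P U hU hU0 hUΩ h1
  · exact key P V hV hV0 hVΩ h1

end Pool.Agent.Results.MP_67b65f_an.NeverDense
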